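import Pool.Agent.Work.MP_eef58c_lc.Fin

/-!
# One-pass streaming algorithms for maximum submodular matching need quadratic space below factor 2
-/

set_option autoImplicit false

namespace Pool.Agent.Results.MP_eef58c_lc.QuadraticSpace

open Pool.Agent.Work.MP_eef58c_lc

private theorem poly (C : ℝ) (k : ℕ) {c : ℝ} (hc : 0 < c) :
    ∃ n₀ : ℕ, ∀ n ≥ n₀, C * n * Real.log n ^ k ≤ c * (n : ℝ) ^ 2 := by
  have h := (Real.isLittleO_pow_log_id_atTop (n := k)).bound (show 0 < c / (|C| + 1) by positivity)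
  have h1 := (tendsto_natCast_atTop_atTop (R := ℝ)).eventually h
  obtain ⟨n₀, hn₀⟩ := Filter.eventually_atTop.1 h1
  refine ⟨n₀, fun n hn => ?_⟩
  have h2 := hn₀ n hn
  have hn0 : (0 : ℝ) ≤ n := Nat.cast_nonneg n
  simp only [id, Real.norm_eq_abs, abs_of_nonneg hn0] at h2
  have h3 : Real.log n ^ k ≤ |Real.log n ^ k| := le_abs_self _
  have h4 : C * Real.log n ^ k ≤ c * n := by
    calc C * Real.log n ^ k ≤ |C * Real.log n ^ k| := le_abs_self _
      _ = |C| * |Real.log n ^ k| := abs_mul _ _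
      _ ≤ (|C| + 1) * |Real.log n ^ k| := by
        apply mul_le_mul_of_nonneg_right _ (abs_nonneg _)
        linarith
      _ ≤ (|C| + 1) * (c / (|C| + 1) * n) := mul_le_mul_of_nonneg_left h2 (by positivity)
      _ = c * n := by field_simp
  calc C * n * Real.log n ^ k = n * (C * Real.log n ^ k) := by ring
    _ ≤ n * (c * n) := mul_le_mul_of_nonneg_left h4 hn0
    _ = c * (n : ℝ) ^ 2 := by ring

/-- (i) For all `α < 2` and `δ > 0` there is `c > 0` such that for all large `n` every randomized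
one-pass algorithm with at most `c n^2` bits of memory has success probability at most `δ` for
some bipartite graph on `n` vertices, order of its edges and monotone submodular function.
(ii) In particular no randomized algorithm with `O(n log^k n)` bits is an `α`-approximation. -/
theorem result :
    (∀ α δ : ℝ, α < 2 → 0 < δ → ∃ c : ℝ, 0 < c ∧ ∃ n₀ : ℕ, ∀ n ≥ n₀, ∀ s : ℕ,
      (s : ℝ) ≤ c * (n : ℝ) ^ 2 → ∀ μ : PMF (Alg n s),
        ∃ (l : List (Sym2 (Fin n))) (f : Finset (Sym2 (Fin n)) → ℝ),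
          l.Nodup ∧ (∃ X : Finset (Fin n), ∀ e ∈ l, ∃ u ∈ X, ∃ v, v ∉ X ∧ e = s(u, v)) ∧
          f ∅ = 0 ∧ Monotone f ∧ Submod f ∧
          μ.toOuterMeasure {A | A.Succeeds α l f} ≤ ENNReal.ofReal δ) ∧
    (∀ α C : ℝ, ∀ k : ℕ, α < 2 → ∃ n₀ : ℕ, ∀ n ≥ n₀, ∀ s : ℕ,
      (s : ℝ) ≤ C * n * Real.log n ^ k → ∀ μ : PMF (Alg n s),
        ∃ (l : List (Sym2 (Fin n))) (f : Finset (Sym2 (Fin n)) → ℝ),
          l.Nodup ∧ (∃ X : Finset (Fin n), ∀ e ∈ l, ∃ u ∈ X, ∃ v, v ∉ X ∧ e = s(u, v)) ∧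
          f ∅ = 0 ∧ Monotone f ∧ Submod f ∧
          μ.toOuterMeasure {A | A.Succeeds α l f} < 2 / 3) := by
  refine ⟨quadratic, fun α C k hα => ?_⟩
  obtain ⟨c, hc, n₁, h⟩ := quadratic α (1 / 2) hα (by norm_num)
  obtain ⟨n₂, h2⟩ := poly C k hc
  refine ⟨max n₁ n₂, fun n hn s hs μ => ?_⟩
  obtain ⟨l, f, h3, h4, h5, h6, h7, h8⟩ :=
    h n ((le_max_left _ _).trans hn) s (hs.trans (h2 n ((le_max_right _ _).trans hn))) μ
  refine ⟨l, f, h3, h4, h5, h6, h7, h8.trans_lt ?_⟩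
  rw [show (2 / 3 : ENNReal) = ENNReal.ofReal (2 / 3) by
    rw [ENNReal.ofReal_div_of_pos (by norm_num)]; simp]
  exact (ENNReal.ofReal_lt_ofReal_iff (by norm_num)).2 (by norm_num)

end Pool.Agent.Results.MP_eef58c_lc.QuadraticSpace
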