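import Pool.Agent.Work.MP_eef58c_lc.TG.MainC
import Pool.Agent.Work.MP_eef58c_lc.TG.MainM
import Pool.Agent.Work.MP_eef58c_lc.TG.MainS

/-!
# One-pass streaming lower bounds: `2 + 1/√2` for submodular matching, `1 + 1/√2` for maximum matching
-/

set_option autoImplicit false

namespace Pool.Agent.Results.MP_eef58c_lc.SqrtTwo

open Pool.Agent.Work.MP_eef58c_lc Pool.Agent.Work.MP_eef58c_lc.TG

/-- For all constants `C, k` and `δ > 0` and all large `n`, in one pass with at most `C n log^k n` bits: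
(i) for `α < 2 + 1/√2` every randomized algorithm has success probability at most `δ` for some bipartite graph on `n`
vertices, order of its edges and monotone submodular function;
(ii) for `α < 1 + 1/√2` the same for maximum cardinality matching;
(iii) for `α < 1 + 1/√2` the same for maximum cardinality matching and arbitrary streaming algorithms (the output is any
function of the memory). -/
theorem result :
    (∀ α δ C : ℝ, ∀ k : ℕ, α < 2 + 1 / √2 → 0 < δ → ∃ n₀ : ℕ, ∀ n ≥ n₀, ∀ s : ℕ,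
      (s : ℝ) ≤ C * n * Real.log n ^ k → ∀ μ : PMF (Alg n s),
        ∃ (l : List (Sym2 (Fin n))) (f : Finset (Sym2 (Fin n)) → ℝ),
          l.Nodup ∧ (∃ X : Finset (Fin n), ∀ e ∈ l, ∃ u ∈ X, ∃ v, v ∉ X ∧ e = s(u, v)) ∧
          f ∅ = 0 ∧ Monotone f ∧ Submod f ∧
          μ.toOuterMeasure {A | A.Succeeds α l f} ≤ ENNReal.ofReal δ) ∧
    (∀ α δ C : ℝ, ∀ k : ℕ, α < 1 + 1 / √2 → 0 < δ → ∃ n₀ : ℕ, ∀ n ≥ n₀, ∀ s : ℕ,
      (s : ℝ) ≤ C * n * Real.log n ^ k → ∀ μ : PMF (Alg n s),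
        ∃ l : List (Sym2 (Fin n)),
          l.Nodup ∧ (∃ X : Finset (Fin n), ∀ e ∈ l, ∃ u ∈ X, ∃ v, v ∉ X ∧ e = s(u, v)) ∧
          μ.toOuterMeasure {A | A.Succeeds α l (fun S => (S.card : ℝ))} ≤ ENNReal.ofReal δ) ∧
    (∀ α δ C : ℝ, ∀ k : ℕ, α < 1 + 1 / √2 → 0 < δ → ∃ n₀ : ℕ, ∀ n ≥ n₀, ∀ s : ℕ,
      (s : ℝ) ≤ C * n * Real.log n ^ k → ∀ μ : PMF (SAlg n s),
        ∃ l : List (Sym2 (Fin n)),
          l.Nodup ∧ (∃ X : Finset (Fin n), ∀ e ∈ l, ∃ u ∈ X, ∃ v, v ∉ X ∧ e = s(u, v)) ∧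
          μ.toOuterMeasure {A | A.Succeeds α l} ≤ ENNReal.ofReal δ) :=
  ⟨fun α δ C k hα hδ => main_msm α δ C k hα hδ, fun α δ C k hα hδ => main_card α δ C k hα hδ,
    fun α δ C k hα hδ => main_out α δ C k hα hδ⟩

end Pool.Agent.Results.MP_eef58c_lc.SqrtTwo
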